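import Pool.Agent.Helper36.SPR.St

/-!
# Project SPR: module BM (multiplicative Balog-Szemeredi-Gowers from the additive one)
-/

set_option autoImplicit false

namespace Pool.Agent.Helper52.SPR

open Finset
open scoped Pointwise
open Pool.Agent.Helper36.SPR

theorem hBM (hBA : StBA) : StBM := by
  intro G _ _ A K hA hK h
  obtain ⟨S, hS, h1, h2⟩ := @hBA (Additive G) _ (inferInstanceAs (DecidableEq G)) A K hA hK h
  exact ⟨S, hS, h1, h2⟩

end Pool.Agent.Helper52.SPR
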